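import Mathlib
import Pool.Agent.R1.SmallGraph
import Pool.Agent.R1.DiamMax

/-!
# A diameter-maximal 5-regular graph of diameter 4 and girth 3

The graph has 22 vertices. It contains two disjoint Bethe trees of two levels (with roots `0` and
`6`); the ten remaining vertices span a graph with a triangle. Its second largest eigenvalue is
`√5`.
-/

set_option autoImplicit false
set_option maxRecDepth 100000

open Finset

namespace Pool.Agent.Results.MP_67c69b_co.EvenDiameter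

open Pool.Agent.R1.Gap Pool.Agent.R1.Cert Pool.Agent.R1.SmallGraph Pool.Agent.R1.DiamMax

/-- the rows of the adjacency matrix `A` of `G` -/
def AL : List (List ℤ) := [
    [0, 1, 1, 1, 1, 1, 0, 0, 0, 0, 0, 0, 0, 0, 0, 0, 0, 0, 0, 0, 0, 0],
    [1, 0, 0, 0, 0, 0, 0, 0, 0, 0, 0, 0, 1, 0, 1, 0, 0, 1, 0, 0, 1, 0],
    [1, 0, 0, 0, 0, 0, 0, 0, 0, 0, 0, 0, 0, 0, 1, 1, 1, 0, 1, 0, 0, 0],
    [1, 0, 0, 0, 0, 0, 0, 0, 0, 0, 0, 0, 0, 0, 0, 1, 0, 1, 0, 0, 1, 1],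
    [1, 0, 0, 0, 0, 0, 0, 0, 0, 0, 0, 0, 1, 1, 0, 0, 1, 0, 0, 1, 0, 0],
    [1, 0, 0, 0, 0, 0, 0, 0, 0, 0, 0, 0, 0, 1, 0, 0, 0, 0, 1, 1, 0, 1],
    [0, 0, 0, 0, 0, 0, 0, 1, 1, 1, 1, 1, 0, 0, 0, 0, 0, 0, 0, 0, 0, 0],
    [0, 0, 0, 0, 0, 0, 1, 0, 0, 0, 0, 0, 0, 0, 1, 0, 1, 0, 0, 1, 1, 0],
    [0, 0, 0, 0, 0, 0, 1, 0, 0, 0, 0, 0, 1, 1, 0, 1, 0, 0, 0, 0, 1, 0],
    [0, 0, 0, 0, 0, 0, 1, 0, 0, 0, 0, 0, 1, 0, 0, 0, 1, 0, 1, 0, 0, 1],
    [0, 0, 0, 0, 0, 0, 1, 0, 0, 0, 0, 0, 0, 0, 1, 0, 0, 1, 0, 1, 0, 1],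
    [0, 0, 0, 0, 0, 0, 1, 0, 0, 0, 0, 0, 0, 1, 0, 1, 0, 1, 1, 0, 0, 0],
    [0, 1, 0, 0, 1, 0, 0, 0, 1, 1, 0, 0, 0, 0, 0, 0, 0, 0, 0, 0, 0, 1],
    [0, 0, 0, 0, 1, 1, 0, 0, 1, 0, 0, 1, 0, 0, 1, 0, 0, 0, 0, 0, 0, 0],
    [0, 1, 1, 0, 0, 0, 0, 1, 0, 0, 1, 0, 0, 1, 0, 0, 0, 0, 0, 0, 0, 0],
    [0, 0, 1, 1, 0, 0, 0, 0, 1, 0, 0, 1, 0, 0, 0, 0, 0, 0, 0, 1, 0, 0],
    [0, 0, 1, 0, 1, 0, 0, 1, 0, 1, 0, 0, 0, 0, 0, 0, 0, 1, 0, 0, 0, 0],
    [0, 1, 0, 1, 0, 0, 0, 0, 0, 0, 1, 1, 0, 0, 0, 0, 1, 0, 0, 0, 0, 0],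
    [0, 0, 1, 0, 0, 1, 0, 0, 0, 1, 0, 1, 0, 0, 0, 0, 0, 0, 0, 0, 1, 0],
    [0, 0, 0, 0, 1, 1, 0, 1, 0, 0, 1, 0, 0, 0, 0, 1, 0, 0, 0, 0, 0, 0],
    [0, 1, 0, 1, 0, 0, 0, 1, 1, 0, 0, 0, 0, 0, 0, 0, 0, 0, 1, 0, 0, 0],
    [0, 0, 0, 1, 0, 1, 0, 0, 0, 1, 1, 0, 1, 0, 0, 0, 0, 0, 0, 0, 0, 0]]

/-- the rows of `22 - 10 A + 2 J + 15 p pᵀ + 5 q qᵀ` -/
def ML : List (List ℤ) := [
    [39, -8, -8, -8, -8, -8, -13, 2, 2, 2, 2, 2, 2, 2, 2, 2, 2, 2, 2, 2, 2, 2],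
    [-8, 29, 7, 7, 7, 7, 2, -3, -3, -3, -3, -3, -8, 2, -8, 2, 2, -8, 2, 2, -8, 2],
    [-8, 7, 29, 7, 7, 7, 2, -3, -3, -3, -3, -3, 2, 2, -8, -8, -8, 2, -8, 2, 2, 2],
    [-8, 7, 7, 29, 7, 7, 2, -3, -3, -3, -3, -3, 2, 2, 2, -8, 2, -8, 2, 2, -8, -8],
    [-8, 7, 7, 7, 29, 7, 2, -3, -3, -3, -3, -3, -8, -8, 2, 2, -8, 2, 2, -8, 2, 2],
    [-8, 7, 7, 7, 7, 29, 2, -3, -3, -3, -3, -3, 2, -8, 2, 2, 2, 2, -8, -8, 2, -8],
    [-13, 2, 2, 2, 2, 2, 39, -8, -8, -8, -8, -8, 2, 2, 2, 2, 2, 2, 2, 2, 2, 2],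
    [2, -3, -3, -3, -3, -3, -8, 29, 7, 7, 7, 7, 2, 2, -8, 2, -8, 2, 2, -8, -8, 2],
    [2, -3, -3, -3, -3, -3, -8, 7, 29, 7, 7, 7, -8, -8, 2, -8, 2, 2, 2, 2, -8, 2],
    [2, -3, -3, -3, -3, -3, -8, 7, 7, 29, 7, 7, -8, 2, 2, 2, -8, 2, -8, 2, 2, -8],
    [2, -3, -3, -3, -3, -3, -8, 7, 7, 7, 29, 7, 2, 2, -8, 2, 2, -8, 2, -8, 2, -8],
    [2, -3, -3, -3, -3, -3, -8, 7, 7, 7, 7, 29, 2, -8, 2, -8, 2, -8, -8, 2, 2, 2],
    [2, -8, 2, 2, -8, 2, 2, 2, -8, -8, 2, 2, 24, 2, 2, 2, 2, 2, 2, 2, 2, -8],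
    [2, 2, 2, 2, -8, -8, 2, 2, -8, 2, 2, -8, 2, 24, -8, 2, 2, 2, 2, 2, 2, 2],
    [2, -8, -8, 2, 2, 2, 2, -8, 2, 2, -8, 2, 2, -8, 24, 2, 2, 2, 2, 2, 2, 2],
    [2, 2, -8, -8, 2, 2, 2, 2, -8, 2, 2, -8, 2, 2, 2, 24, 2, 2, 2, -8, 2, 2],
    [2, 2, -8, 2, -8, 2, 2, -8, 2, -8, 2, 2, 2, 2, 2, 2, 24, -8, 2, 2, 2, 2],
    [2, -8, 2, -8, 2, 2, 2, 2, 2, 2, -8, -8, 2, 2, 2, 2, -8, 24, 2, 2, 2, 2],
    [2, 2, -8, 2, 2, -8, 2, 2, 2, -8, 2, -8, 2, 2, 2, 2, 2, 2, 24, 2, -8, 2],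
    [2, 2, 2, 2, -8, -8, 2, -8, 2, 2, -8, 2, 2, 2, 2, -8, 2, 2, 2, 24, 2, 2],
    [2, -8, 2, -8, 2, 2, 2, -8, -8, 2, 2, 2, 2, 2, 2, 2, 2, 2, -8, 2, 24, 2],
    [2, 2, 2, -8, 2, -8, 2, 2, 2, -8, -8, 2, -8, 2, 2, 2, 2, 2, 2, 2, 2, 24]]

/-- an approximate Cholesky factor of a multiple of `ML` -/
def CL : List (List ℤ) := [
    [1245, 0, 0, 0, 0, 0, 0, 0, 0, 0, 0, 0, 0, 0, 0, 0, 0, 0, 0, 0, 0, 0],
    [-257, 1042, 0, 0, 0, 0, 0, 0, 0, 0, 0, 0, 0, 0, 0, 0, 0, 0, 0, 0, 0, 0],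
    [-257, 205, 1021, 0, 0, 0, 0, 0, 0, 0, 0, 0, 0, 0, 0, 0, 0, 0, 0, 0, 0, 0],
    [-257, 205, 168, 1007, 0, 0, 0, 0, 0, 0, 0, 0, 0, 0, 0, 0, 0, 0, 0, 0, 0, 0],
    [-257, 205, 168, 142, 997, 0, 0, 0, 0, 0, 0, 0, 0, 0, 0, 0, 0, 0, 0, 0, 0, 0],
    [-257, 205, 168, 142, 124, 989, 0, 0, 0, 0, 0, 0, 0, 0, 0, 0, 0, 0, 0, 0, 0, 0],
    [-418, -26, -21, -18, -16, -14, 1173, 0, 0, 0, 0, 0, 0, 0, 0, 0, 0, 0, 0, 0, 0, 0],
    [64, -99, -81, -69, -60, -53, -256, 1027, 0, 0, 0, 0, 0, 0, 0, 0, 0, 0, 0, 0, 0, 0],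
    [64, -99, -81, -69, -60, -53, -256, 178, 1011, 0, 0, 0, 0, 0, 0, 0, 0, 0, 0, 0, 0, 0],
    [64, -99, -81, -69, -60, -53, -256, 178, 149, 1000, 0, 0, 0, 0, 0, 0, 0, 0, 0, 0, 0, 0],
    [64, -99, -81, -69, -60, -53, -256, 178, 149, 129, 992, 0, 0, 0, 0, 0, 0, 0, 0, 0, 0, 0],
    [64, -99, -81, -69, -60, -53, -256, 178, 149, 129, 113, 985, 0, 0, 0, 0, 0, 0, 0, 0, 0, 0],
    [64, -291, 153, 130, -289, 149, 87, 79, -329, -284, 154, 137, 686, 0, 0, 0, 0, 0, 0, 0, 0,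
      0],
    [64, 93, 76, 64, -345, -305, 87, 79, -329, 116, 102, -315, -48, 685, 0, 0, 0, 0, 0, 0, 0,
      0],
    [64, -291, -239, 195, 169, 149, 87, -310, 135, 116, -301, 137, 220, -80, 645, 0, 0, 0, 0,
      0, 0, 0],
    [64, 93, -316, -267, 169, 149, 87, 79, -329, 116, 102, -315, 220, -33, 155, 631, 0, 0, 0,
      0, 0, 0],
    [64, 93, -316, 130, -289, 149, 87, -310, 135, -284, 154, 137, -48, 217, -8, 269, 591, 0, 0,
      0, 0, 0],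
    [64, -291, 153, -267, 169, 149, 87, 79, 66, 57, -353, -315, 220, 236, -96, -93, -139, 574,
      0, 0, 0, 0],
    [64, 93, -316, 130, 112, -305, 87, 79, 66, -343, 102, -315, 220, -33, 155, -168, 53, 203,
      570, 0, 0, 0],
    [64, 93, 76, 64, -345, -305, 87, -310, 135, 116, -301, 137, 220, -33, -130, -150, 41, 156,
      109, 587, 0, 0],
    [64, -291, 153, -267, 169, 149, 87, -310, -261, 175, 154, 137, -48, 217, -8, -22, 182, -89,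
      -74, 304, 531, 0],
    [64, 93, 76, -333, 112, -305, 87, 79, 66, -343, -301, 137, -363, 195, 382, 282, 31, 119,
      28, 209, 83, 98]]

/-- the neighbours -/
def nb : List (List ℕ) := [
    [1, 2, 3, 4, 5],
    [0, 12, 14, 17, 20],
    [0, 14, 15, 16, 18],
    [0, 15, 17, 20, 21],
    [0, 12, 13, 16, 19],
    [0, 13, 18, 19, 21],
    [7, 8, 9, 10, 11],
    [6, 14, 16, 19, 20],
    [6, 12, 13, 15, 20],
    [6, 12, 16, 18, 21],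
    [6, 14, 17, 19, 21],
    [6, 13, 15, 17, 18],
    [1, 4, 8, 9, 21],
    [4, 5, 8, 11, 14],
    [1, 2, 7, 10, 13],
    [2, 3, 8, 11, 19],
    [2, 4, 7, 9, 17],
    [1, 3, 10, 11, 16],
    [2, 5, 9, 11, 20],
    [4, 5, 7, 10, 15],
    [1, 3, 7, 8, 18],
    [3, 5, 9, 10, 12]]

/-- the distance from the first root -/
def lev : List ℕ := [0, 1, 1, 1, 1, 1, 4, 3, 3, 3, 3, 3, 2, 2, 2, 2, 2, 2, 2, 2, 2, 2]

/-- `p`: the difference of the indicator functions of the two roots -/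
def pL : List ℤ := [1, 0, 0, 0, 0, 0, -1, 0, 0, 0, 0, 0, 0, 0, 0, 0, 0, 0, 0, 0, 0, 0]

/-- `q`: the difference of the indicator functions of the neighbourhoods of the two roots -/
def qL : List ℤ := [0, 1, 1, 1, 1, 1, 0, -1, -1, -1, -1, -1, 0, 0, 0, 0, 0, 0, 0, 0, 0, 0]

/-- the graph on 22 vertices -/
def G : SimpleGraph (Fin 22) where
  Adj x y := ent AL x y = 1
  symm := ⟨by decide +kernel⟩
  loopless := ⟨by decide +kernel⟩

instance : DecidableRel G.Adj := fun x y => inferInstanceAs (Decidable (ent AL x y = 1))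

lemma ent_AL : ∀ x y : Fin 22, ent AL x y = 1 ∧ G.Adj x y ∨ ent AL x y = 0 ∧ ¬ G.Adj x y := by
  decide +kernel

lemma symm_AL : ∀ x y : Fin 22, ent AL x y = ent AL y x := by decide +kernel

lemma check_M : check2 22 ML CL 40000 = true := by decide +kernel

lemma ent_ML : ∀ x y : Fin 22, ent ML x y = 22 * (if x = y then 1 else 0) - 10 * ent AL x y + 2 +
    15 * (pL.getD x 0 * pL.getD y 0) + 5 * (qL.getD x 0 * qL.getD y 0) := by decide +kernel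

lemma sum_p : ∀ x : Fin 22, ∑ y : Fin 22, ent AL x y * pL.getD y 0 = qL.getD x 0 := by
  decide +kernel

lemma sum_q : ∀ x : Fin 22, ∑ y : Fin 22, ent AL x y * qL.getD y 0 = 5 * pL.getD x 0 := by
  decide +kernel

lemma tot_p : ∑ x : Fin 22, pL.getD x 0 = 0 := by decide +kernel

lemma tot_q : ∑ x : Fin 22, qL.getD x 0 = 0 := by decide +kernel

lemma row_AL : ∀ x : Fin 22, ∑ y : Fin 22, ent AL x y = 5 := by decide +kernel

lemma degree_G : ∀ x : Fin 22, G.degree x = 5 := by decide +kernel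

lemma nb_G : ∀ x : Fin 22, ∀ z ∈ nb.getD x [], ∃ h : z < 22, G.Adj x ⟨z, h⟩ := by decide +kernel

lemma ball_G : ∀ x : Fin 22, bm (fun i => nb.getD i []) 4 x = 2 ^ 22 - 1 := by decide +kernel

lemma lev_G : ∀ x y : Fin 22, G.Adj x y → lev.getD y 0 ≤ lev.getD x 0 + 1 := by decide +kernel

lemma conn_diam : G.Connected ∧ G.diam = 4 :=
  diam_eq G 4 (fun i => nb.getD i []) nb_G ball_G (fun x => lev.getD x 0) lev_G 0 6 rfl rfl

/-- moving the adjacency matrix to the other side of a scalar product -/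
lemma adj_dot (g f : Fin 22 → ℝ) :
    ∑ x : Fin 22, g x * ∑ y : Fin 22, (ent AL x y : ℝ) * f y =
      ∑ x : Fin 22, (∑ y : Fin 22, (ent AL x y : ℝ) * g y) * f x := by
  have h1 : ∀ x : Fin 22, g x * ∑ y : Fin 22, (ent AL x y : ℝ) * f y =
      ∑ y : Fin 22, g x * ((ent AL x y : ℝ) * f y) := fun x => Finset.mul_sum _ _ _
  rw [Finset.sum_congr rfl fun x _ => h1 x, Finset.sum_comm]
  refine Finset.sum_congr rfl fun y _ => ?_
  rw [Finset.sum_mul]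
  refine Finset.sum_congr rfl fun x _ => ?_
  rw [symm_AL x y]
  ring

/-- the spectral gap is `B(5, 4)` -/
lemma gap_G : lam2 G = B 5 4 := by
  rw [B_54]
  obtain ⟨s, hs⟩ : ∃ s, s = √(5 : ℝ) := ⟨_, rfl⟩
  have hs2 : s * s = 5 := by rw [hs]; exact Real.mul_self_sqrt (by norm_num)
  have hs0 : 0 < s := by rw [hs]; positivity
  have hs22 : 2.2 < s := by nlinarith
  rw [← hs]
  have hp : ∀ x : Fin 22, ∑ y : Fin 22, (ent AL x y : ℝ) * ((pL.getD y 0 : ℤ) : ℝ) =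
      ((qL.getD x 0 : ℤ) : ℝ) := fun x => by exact_mod_cast sum_p x
  have hq : ∀ x : Fin 22, ∑ y : Fin 22, (ent AL x y : ℝ) * ((qL.getD y 0 : ℤ) : ℝ) =
      5 * ((pL.getD x 0 : ℤ) : ℝ) := fun x => by exact_mod_cast sum_q x
  refine lam2_eq G 5 (fun x y => (ent AL x y : ℝ)) ?_ ?_ s
    (fun x => ((pL.getD x 0 : ℤ) : ℝ) * s + ((qL.getD x 0 : ℤ) : ℝ)) ?_ ?_ ?_ ?_
  · intro x y
    rcases ent_AL x y with ⟨h1, h2⟩ | ⟨h1, h2⟩
    · exact Or.inl ⟨by exact_mod_cast h1, h2⟩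
    · exact Or.inr ⟨by exact_mod_cast h1, h2⟩
  · intro x
    exact_mod_cast row_AL x
  · intro h
    have h1 := congrFun h (1 : Fin 22)
    have hp : pL.getD ((1 : Fin 22) : ℕ) 0 = 0 := by decide +kernel
    have hq : qL.getD ((1 : Fin 22) : ℕ) 0 = 1 := by decide +kernel
    simp only [hp, hq] at h1
    norm_num at h1
  · rw [Finset.sum_add_distrib, ← Finset.sum_mul]
    have h1 : ∑ x : Fin 22, ((pL.getD x 0 : ℤ) : ℝ) = 0 := by exact_mod_cast tot_p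
    have h2 : ∑ x : Fin 22, ((qL.getD x 0 : ℤ) : ℝ) = 0 := by exact_mod_cast tot_q
    rw [h1, h2]
    ring
  · intro x
    have h3 : ∀ y : Fin 22, (ent AL x y : ℝ) *
        (((pL.getD y 0 : ℤ) : ℝ) * s + ((qL.getD y 0 : ℤ) : ℝ)) =
        (ent AL x y : ℝ) * ((pL.getD y 0 : ℤ) : ℝ) * s +
        (ent AL x y : ℝ) * ((qL.getD y 0 : ℤ) : ℝ) := fun y => by ring
    rw [Finset.sum_congr rfl fun y _ => h3 y, Finset.sum_add_distrib, ← Finset.sum_mul, hp, hq]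
    linear_combination (-((pL.getD x 0 : ℤ) : ℝ)) * hs2
  · intro l f hf hsum he
    by_cases hl : l ^ 2 = 5
    · by_contra hlt
      push Not at hlt
      nlinarith
    have e1 : ∑ x : Fin 22, ((qL.getD x 0 : ℤ) : ℝ) * f x =
        l * ∑ x : Fin 22, ((pL.getD x 0 : ℤ) : ℝ) * f x := by
      have h1 := adj_dot (fun x => ((pL.getD x 0 : ℤ) : ℝ)) f
      simp only [he, hp] at h1
      rw [← h1, Finset.mul_sum]
      exact Finset.sum_congr rfl fun x _ => by ring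
    have e2 : 5 * ∑ x : Fin 22, ((pL.getD x 0 : ℤ) : ℝ) * f x =
        l * ∑ x : Fin 22, ((qL.getD x 0 : ℤ) : ℝ) * f x := by
      have h1 := adj_dot (fun x => ((qL.getD x 0 : ℤ) : ℝ)) f
      simp only [he, hq] at h1
      rw [Finset.mul_sum, Finset.mul_sum]
      have h2 : ∑ x : Fin 22, 5 * (((pL.getD x 0 : ℤ) : ℝ) * f x) =
          ∑ x : Fin 22, 5 * ((pL.getD x 0 : ℤ) : ℝ) * f x :=
        Finset.sum_congr rfl fun x _ => by ring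
      rw [h2, ← h1]
      exact Finset.sum_congr rfl fun x _ => by ring
    have p0 : ∑ x : Fin 22, ((pL.getD x 0 : ℤ) : ℝ) * f x = 0 := by
      rw [e1] at e2
      have h1 : (l ^ 2 - 5) * ∑ x : Fin 22, ((pL.getD x 0 : ℤ) : ℝ) * f x = 0 := by
        linear_combination (-1 : ℝ) * e2
      rcases mul_eq_zero.1 h1 with h | h
      · exact absurd (by linarith) hl
      · exact h
    have q0 : ∑ x : Fin 22, ((qL.getD x 0 : ℤ) : ℝ) * f x = 0 := by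
      rw [e1, p0, mul_zero]
    have hM : ∀ x : Fin 22, ∑ y : Fin 22, (ent ML x y : ℝ) * f y = (22 - 10 * l) * f x := by
      intro x
      have h1 : ∀ y : Fin 22, (ent ML x y : ℝ) * f y = (if x = y then 22 * f y else 0) -
          10 * ((ent AL x y : ℝ) * f y) + 2 * f y +
          15 * ((pL.getD x 0 : ℤ) : ℝ) * (((pL.getD y 0 : ℤ) : ℝ) * f y) +
          5 * ((qL.getD x 0 : ℤ) : ℝ) * (((qL.getD y 0 : ℤ) : ℝ) * f y) := by
        intro y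
        rw [ent_ML]
        push_cast
        split_ifs <;> ring
      rw [Finset.sum_congr rfl fun y _ => h1 y, Finset.sum_add_distrib, Finset.sum_add_distrib,
        Finset.sum_add_distrib, Finset.sum_sub_distrib, Finset.sum_ite_eq,
        if_pos (Finset.mem_univ _), ← Finset.mul_sum, ← Finset.mul_sum, ← Finset.mul_sum,
        ← Finset.mul_sum, he, hsum, p0, q0]
      ring
    have hpsd := check2_sound 22 ML CL 40000 (by norm_num) check_M f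
    have h1 : ∑ x : Fin 22, ∑ y : Fin 22, f x * (ent ML x y : ℝ) * f y =
        (22 - 10 * l) * ∑ x : Fin 22, f x ^ 2 := by
      rw [Finset.mul_sum]
      refine Finset.sum_congr rfl fun x _ => ?_
      have h2 : ∀ y : Fin 22, f x * (ent ML x y : ℝ) * f y = f x * ((ent ML x y : ℝ) * f y) :=
        fun y => by ring
      rw [Finset.sum_congr rfl fun y _ => h2 y, ← Finset.mul_sum, hM]
      ring
    rw [h1] at hpsd
    obtain ⟨x, hx⟩ : ∃ x, f x ≠ 0 := by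
      by_contra h
      push Not at h
      exact hf (funext h)
    have hpos : 0 < ∑ x : Fin 22, f x ^ 2 := by
      refine lt_of_lt_of_le (by positivity : 0 < f x ^ 2) ?_
      exact Finset.single_le_sum (f := fun x => f x ^ 2) (fun y _ => sq_nonneg (f y))
        (Finset.mem_univ x)
    by_contra hlt
    push Not at hlt
    nlinarith

lemma girth_G : G.girth = 3 := by
  have c1 : G.Adj 9 12 := by decide +kernel
  have c2 : G.Adj 12 21 := by decide +kernel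
  have c3 : G.Adj 21 9 := by decide +kernel
  obtain ⟨w, hw⟩ : ∃ w : G.Walk 9 9, w = SimpleGraph.Walk.cons c1 (.cons c2 (.cons c3 .nil)) :=
    ⟨_, rfl⟩
  have hcyc : w.IsCycle := by
    rw [hw, SimpleGraph.Walk.isCycle_def, SimpleGraph.Walk.isTrail_def]
    refine ⟨?_, ?_, ?_⟩
    · simp only [SimpleGraph.Walk.edges_cons, SimpleGraph.Walk.edges_nil]
      decide +kernel
    · intro h
      cases h
    · simp only [SimpleGraph.Walk.support_cons, SimpleGraph.Walk.support_nil, List.tail_cons]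
      decide +kernel
  have hlen : w.length = 3 := by rw [hw]; rfl
  have hna : ¬ G.IsAcyclic := fun h => h w hcyc
  have h1 : G.girth ≤ 3 := hlen ▸ SimpleGraph.girth_le_length hcyc
  have h2 : 3 ≤ G.girth := SimpleGraph.three_le_girth hna
  omega

/-- There is a diameter-maximal 5-regular graph of diameter 4 whose girth is 3. -/
theorem result : ∃ (V : Type) (_ : Fintype V) (G : SimpleGraph V),
    DiameterMaximal G 5 4 ∧ G.girth = 3 := by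
  refine ⟨Fin 22, inferInstance, G, ⟨conn_diam.1, fun v => ?_, conn_diam.2, gap_G⟩, girth_G⟩
  rw [ncard_eq_degree, degree_G]

end Pool.Agent.Results.MP_67c69b_co.EvenDiameter
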