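import Mathlib
import Pool.Agent.R1.SmallGraph
import Pool.Agent.R1.DiamMax

/-!
# A diameter-maximal 4-regular graph of diameter 5 and girth 4

The graph has 34 vertices. It consists of two Bethe trees of three levels (with roots `0` and `17`)
and of 36 edges joining their leaves. Its second largest eigenvalue is `(1 + √13) / 2`.
-/

set_option autoImplicit false
set_option maxRecDepth 100000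

open Finset

namespace Pool.Agent.Results.MP_67c69b_co.OddDiameter

open Pool.Agent.R1.Gap Pool.Agent.R1.Cert Pool.Agent.R1.SmallGraph Pool.Agent.R1.DiamMax

/-- the rows of the adjacency matrix `A` of `G` -/
def AL : List (List ℤ) := [
    [0, 1, 1, 1, 1, 0, 0, 0, 0, 0, 0, 0, 0, 0, 0, 0, 0, 0, 0, 0, 0, 0, 0, 0, 0, 0, 0, 0, 0, 0,
      0, 0, 0, 0],
    [1, 0, 0, 0, 0, 1, 1, 1, 0, 0, 0, 0, 0, 0, 0, 0, 0, 0, 0, 0, 0, 0, 0, 0, 0, 0, 0, 0, 0, 0,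
      0, 0, 0, 0],
    [1, 0, 0, 0, 0, 0, 0, 0, 1, 1, 1, 0, 0, 0, 0, 0, 0, 0, 0, 0, 0, 0, 0, 0, 0, 0, 0, 0, 0, 0,
      0, 0, 0, 0],
    [1, 0, 0, 0, 0, 0, 0, 0, 0, 0, 0, 1, 1, 1, 0, 0, 0, 0, 0, 0, 0, 0, 0, 0, 0, 0, 0, 0, 0, 0,
      0, 0, 0, 0],
    [1, 0, 0, 0, 0, 0, 0, 0, 0, 0, 0, 0, 0, 0, 1, 1, 1, 0, 0, 0, 0, 0, 0, 0, 0, 0, 0, 0, 0, 0,
      0, 0, 0, 0],
    [0, 1, 0, 0, 0, 0, 0, 0, 0, 0, 0, 0, 0, 0, 0, 0, 0, 0, 0, 0, 0, 0, 0, 0, 0, 1, 0, 0, 0, 1,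
      0, 0, 0, 1],
    [0, 1, 0, 0, 0, 0, 0, 0, 0, 0, 0, 0, 0, 0, 0, 0, 0, 0, 0, 0, 0, 0, 0, 0, 0, 0, 0, 1, 0, 0,
      1, 0, 1, 0],
    [0, 1, 0, 0, 0, 0, 0, 0, 0, 0, 0, 0, 0, 0, 0, 0, 0, 0, 0, 0, 0, 0, 0, 0, 0, 0, 1, 0, 1, 0,
      0, 1, 0, 0],
    [0, 0, 1, 0, 0, 0, 0, 0, 0, 0, 0, 0, 0, 0, 0, 0, 0, 0, 0, 0, 0, 0, 1, 0, 0, 0, 1, 0, 0, 0,
      1, 0, 0, 0],
    [0, 0, 1, 0, 0, 0, 0, 0, 0, 0, 0, 0, 0, 0, 0, 0, 0, 0, 0, 0, 0, 0, 0, 0, 1, 0, 0, 1, 0, 1,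
      0, 0, 0, 0],
    [0, 0, 1, 0, 0, 0, 0, 0, 0, 0, 0, 0, 0, 0, 0, 0, 0, 0, 0, 0, 0, 0, 0, 1, 0, 1, 0, 0, 1, 0,
      0, 0, 0, 0],
    [0, 0, 0, 1, 0, 0, 0, 0, 0, 0, 0, 0, 0, 0, 0, 0, 0, 0, 0, 0, 0, 0, 0, 1, 0, 0, 0, 0, 0, 0,
      1, 1, 0, 0],
    [0, 0, 0, 1, 0, 0, 0, 0, 0, 0, 0, 0, 0, 0, 0, 0, 0, 0, 0, 0, 0, 0, 1, 0, 0, 0, 0, 0, 0, 1,
      0, 0, 1, 0],
    [0, 0, 0, 1, 0, 0, 0, 0, 0, 0, 0, 0, 0, 0, 0, 0, 0, 0, 0, 0, 0, 0, 0, 0, 1, 0, 0, 0, 1, 0,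
      0, 0, 0, 1],
    [0, 0, 0, 0, 1, 0, 0, 0, 0, 0, 0, 0, 0, 0, 0, 0, 0, 0, 0, 0, 0, 0, 0, 0, 1, 0, 0, 1, 0, 0,
      0, 1, 0, 0],
    [0, 0, 0, 0, 1, 0, 0, 0, 0, 0, 0, 0, 0, 0, 0, 0, 0, 0, 0, 0, 0, 0, 0, 1, 0, 1, 0, 0, 0, 0,
      0, 0, 1, 0],
    [0, 0, 0, 0, 1, 0, 0, 0, 0, 0, 0, 0, 0, 0, 0, 0, 0, 0, 0, 0, 0, 0, 1, 0, 0, 0, 1, 0, 0, 0,
      0, 0, 0, 1],
    [0, 0, 0, 0, 0, 0, 0, 0, 0, 0, 0, 0, 0, 0, 0, 0, 0, 0, 1, 1, 1, 1, 0, 0, 0, 0, 0, 0, 0, 0,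
      0, 0, 0, 0],
    [0, 0, 0, 0, 0, 0, 0, 0, 0, 0, 0, 0, 0, 0, 0, 0, 0, 1, 0, 0, 0, 0, 1, 1, 1, 0, 0, 0, 0, 0,
      0, 0, 0, 0],
    [0, 0, 0, 0, 0, 0, 0, 0, 0, 0, 0, 0, 0, 0, 0, 0, 0, 1, 0, 0, 0, 0, 0, 0, 0, 1, 1, 1, 0, 0,
      0, 0, 0, 0],
    [0, 0, 0, 0, 0, 0, 0, 0, 0, 0, 0, 0, 0, 0, 0, 0, 0, 1, 0, 0, 0, 0, 0, 0, 0, 0, 0, 0, 1, 1,
      1, 0, 0, 0],
    [0, 0, 0, 0, 0, 0, 0, 0, 0, 0, 0, 0, 0, 0, 0, 0, 0, 1, 0, 0, 0, 0, 0, 0, 0, 0, 0, 0, 0, 0,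
      0, 1, 1, 1],
    [0, 0, 0, 0, 0, 0, 0, 0, 1, 0, 0, 0, 1, 0, 0, 0, 1, 0, 1, 0, 0, 0, 0, 0, 0, 0, 0, 0, 0, 0,
      0, 0, 0, 0],
    [0, 0, 0, 0, 0, 0, 0, 0, 0, 0, 1, 1, 0, 0, 0, 1, 0, 0, 1, 0, 0, 0, 0, 0, 0, 0, 0, 0, 0, 0,
      0, 0, 0, 0],
    [0, 0, 0, 0, 0, 0, 0, 0, 0, 1, 0, 0, 0, 1, 1, 0, 0, 0, 1, 0, 0, 0, 0, 0, 0, 0, 0, 0, 0, 0,
      0, 0, 0, 0],
    [0, 0, 0, 0, 0, 1, 0, 0, 0, 0, 1, 0, 0, 0, 0, 1, 0, 0, 0, 1, 0, 0, 0, 0, 0, 0, 0, 0, 0, 0,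
      0, 0, 0, 0],
    [0, 0, 0, 0, 0, 0, 0, 1, 1, 0, 0, 0, 0, 0, 0, 0, 1, 0, 0, 1, 0, 0, 0, 0, 0, 0, 0, 0, 0, 0,
      0, 0, 0, 0],
    [0, 0, 0, 0, 0, 0, 1, 0, 0, 1, 0, 0, 0, 0, 1, 0, 0, 0, 0, 1, 0, 0, 0, 0, 0, 0, 0, 0, 0, 0,
      0, 0, 0, 0],
    [0, 0, 0, 0, 0, 0, 0, 1, 0, 0, 1, 0, 0, 1, 0, 0, 0, 0, 0, 0, 1, 0, 0, 0, 0, 0, 0, 0, 0, 0,
      0, 0, 0, 0],
    [0, 0, 0, 0, 0, 1, 0, 0, 0, 1, 0, 0, 1, 0, 0, 0, 0, 0, 0, 0, 1, 0, 0, 0, 0, 0, 0, 0, 0, 0,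
      0, 0, 0, 0],
    [0, 0, 0, 0, 0, 0, 1, 0, 1, 0, 0, 1, 0, 0, 0, 0, 0, 0, 0, 0, 1, 0, 0, 0, 0, 0, 0, 0, 0, 0,
      0, 0, 0, 0],
    [0, 0, 0, 0, 0, 0, 0, 1, 0, 0, 0, 1, 0, 0, 1, 0, 0, 0, 0, 0, 0, 1, 0, 0, 0, 0, 0, 0, 0, 0,
      0, 0, 0, 0],
    [0, 0, 0, 0, 0, 0, 1, 0, 0, 0, 0, 0, 1, 0, 0, 1, 0, 0, 0, 0, 0, 1, 0, 0, 0, 0, 0, 0, 0, 0,
      0, 0, 0, 0],
    [0, 0, 0, 0, 0, 1, 0, 0, 0, 0, 0, 0, 0, 1, 0, 0, 1, 0, 0, 0, 0, 1, 0, 0, 0, 0, 0, 0, 0, 0,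
      0, 0, 0, 0]]

/-- the rows of `A²` -/
def ML : List (List ℤ) := [
    [4, 0, 0, 0, 0, 1, 1, 1, 1, 1, 1, 1, 1, 1, 1, 1, 1, 0, 0, 0, 0, 0, 0, 0, 0, 0, 0, 0, 0, 0,
      0, 0, 0, 0],
    [0, 4, 1, 1, 1, 0, 0, 0, 0, 0, 0, 0, 0, 0, 0, 0, 0, 0, 0, 0, 0, 0, 0, 0, 0, 1, 1, 1, 1, 1,
      1, 1, 1, 1],
    [0, 1, 4, 1, 1, 0, 0, 0, 0, 0, 0, 0, 0, 0, 0, 0, 0, 0, 0, 0, 0, 0, 1, 1, 1, 1, 1, 1, 1, 1,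
      1, 0, 0, 0],
    [0, 1, 1, 4, 1, 0, 0, 0, 0, 0, 0, 0, 0, 0, 0, 0, 0, 0, 0, 0, 0, 0, 1, 1, 1, 0, 0, 0, 1, 1,
      1, 1, 1, 1],
    [0, 1, 1, 1, 4, 0, 0, 0, 0, 0, 0, 0, 0, 0, 0, 0, 0, 0, 0, 0, 0, 0, 1, 1, 1, 1, 1, 1, 0, 0,
      0, 1, 1, 1],
    [1, 0, 0, 0, 0, 4, 1, 1, 0, 1, 1, 0, 1, 1, 0, 1, 1, 0, 0, 1, 1, 1, 0, 0, 0, 0, 0, 0, 0, 0,
      0, 0, 0, 0],
    [1, 0, 0, 0, 0, 1, 4, 1, 1, 1, 0, 1, 1, 0, 1, 1, 0, 0, 0, 1, 1, 1, 0, 0, 0, 0, 0, 0, 0, 0,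
      0, 0, 0, 0],
    [1, 0, 0, 0, 0, 1, 1, 4, 1, 0, 1, 1, 0, 1, 1, 0, 1, 0, 0, 1, 1, 1, 0, 0, 0, 0, 0, 0, 0, 0,
      0, 0, 0, 0],
    [1, 0, 0, 0, 0, 0, 1, 1, 4, 1, 1, 1, 1, 0, 0, 0, 2, 0, 1, 1, 1, 0, 0, 0, 0, 0, 0, 0, 0, 0,
      0, 0, 0, 0],
    [1, 0, 0, 0, 0, 1, 1, 0, 1, 4, 1, 0, 1, 1, 2, 0, 0, 0, 1, 1, 1, 0, 0, 0, 0, 0, 0, 0, 0, 0,
      0, 0, 0, 0],
    [1, 0, 0, 0, 0, 1, 0, 1, 1, 1, 4, 1, 0, 1, 0, 2, 0, 0, 1, 1, 1, 0, 0, 0, 0, 0, 0, 0, 0, 0,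
      0, 0, 0, 0],
    [1, 0, 0, 0, 0, 0, 1, 1, 1, 0, 1, 4, 1, 1, 1, 1, 0, 0, 1, 0, 1, 1, 0, 0, 0, 0, 0, 0, 0, 0,
      0, 0, 0, 0],
    [1, 0, 0, 0, 0, 1, 1, 0, 1, 1, 0, 1, 4, 1, 0, 1, 1, 0, 1, 0, 1, 1, 0, 0, 0, 0, 0, 0, 0, 0,
      0, 0, 0, 0],
    [1, 0, 0, 0, 0, 1, 0, 1, 0, 1, 1, 1, 1, 4, 1, 0, 1, 0, 1, 0, 1, 1, 0, 0, 0, 0, 0, 0, 0, 0,
      0, 0, 0, 0],
    [1, 0, 0, 0, 0, 0, 1, 1, 0, 2, 0, 1, 0, 1, 4, 1, 1, 0, 1, 1, 0, 1, 0, 0, 0, 0, 0, 0, 0, 0,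
      0, 0, 0, 0],
    [1, 0, 0, 0, 0, 1, 1, 0, 0, 0, 2, 1, 1, 0, 1, 4, 1, 0, 1, 1, 0, 1, 0, 0, 0, 0, 0, 0, 0, 0,
      0, 0, 0, 0],
    [1, 0, 0, 0, 0, 1, 0, 1, 2, 0, 0, 0, 1, 1, 1, 1, 4, 0, 1, 1, 0, 1, 0, 0, 0, 0, 0, 0, 0, 0,
      0, 0, 0, 0],
    [0, 0, 0, 0, 0, 0, 0, 0, 0, 0, 0, 0, 0, 0, 0, 0, 0, 4, 0, 0, 0, 0, 1, 1, 1, 1, 1, 1, 1, 1,
      1, 1, 1, 1],
    [0, 0, 0, 0, 0, 0, 0, 0, 1, 1, 1, 1, 1, 1, 1, 1, 1, 0, 4, 1, 1, 1, 0, 0, 0, 0, 0, 0, 0, 0,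
      0, 0, 0, 0],
    [0, 0, 0, 0, 0, 1, 1, 1, 1, 1, 1, 0, 0, 0, 1, 1, 1, 0, 1, 4, 1, 1, 0, 0, 0, 0, 0, 0, 0, 0,
      0, 0, 0, 0],
    [0, 0, 0, 0, 0, 1, 1, 1, 1, 1, 1, 1, 1, 1, 0, 0, 0, 0, 1, 1, 4, 1, 0, 0, 0, 0, 0, 0, 0, 0,
      0, 0, 0, 0],
    [0, 0, 0, 0, 0, 1, 1, 1, 0, 0, 0, 1, 1, 1, 1, 1, 1, 0, 1, 1, 1, 4, 0, 0, 0, 0, 0, 0, 0, 0,
      0, 0, 0, 0],
    [0, 0, 1, 1, 1, 0, 0, 0, 0, 0, 0, 0, 0, 0, 0, 0, 0, 1, 0, 0, 0, 0, 4, 1, 1, 0, 2, 0, 0, 1,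
      1, 0, 1, 1],
    [0, 0, 1, 1, 1, 0, 0, 0, 0, 0, 0, 0, 0, 0, 0, 0, 0, 1, 0, 0, 0, 0, 1, 4, 1, 2, 0, 0, 1, 0,
      1, 1, 1, 0],
    [0, 0, 1, 1, 1, 0, 0, 0, 0, 0, 0, 0, 0, 0, 0, 0, 0, 1, 0, 0, 0, 0, 1, 1, 4, 0, 0, 2, 1, 1,
      0, 1, 0, 1],
    [0, 1, 1, 0, 1, 0, 0, 0, 0, 0, 0, 0, 0, 0, 0, 0, 0, 1, 0, 0, 0, 0, 0, 2, 0, 4, 1, 1, 1, 1,
      0, 0, 1, 1],
    [0, 1, 1, 0, 1, 0, 0, 0, 0, 0, 0, 0, 0, 0, 0, 0, 0, 1, 0, 0, 0, 0, 2, 0, 0, 1, 4, 1, 1, 0,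
      1, 1, 0, 1],
    [0, 1, 1, 0, 1, 0, 0, 0, 0, 0, 0, 0, 0, 0, 0, 0, 0, 1, 0, 0, 0, 0, 0, 0, 2, 1, 1, 4, 0, 1,
      1, 1, 1, 0],
    [0, 1, 1, 1, 0, 0, 0, 0, 0, 0, 0, 0, 0, 0, 0, 0, 0, 1, 0, 0, 0, 0, 0, 1, 1, 1, 1, 0, 4, 1,
      1, 1, 0, 1],
    [0, 1, 1, 1, 0, 0, 0, 0, 0, 0, 0, 0, 0, 0, 0, 0, 0, 1, 0, 0, 0, 0, 1, 0, 1, 1, 0, 1, 1, 4,
      1, 0, 1, 1],
    [0, 1, 1, 1, 0, 0, 0, 0, 0, 0, 0, 0, 0, 0, 0, 0, 0, 1, 0, 0, 0, 0, 1, 1, 0, 0, 1, 1, 1, 1,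
      4, 1, 1, 0],
    [0, 1, 0, 1, 1, 0, 0, 0, 0, 0, 0, 0, 0, 0, 0, 0, 0, 1, 0, 0, 0, 0, 0, 1, 1, 0, 1, 1, 1, 0,
      1, 4, 1, 1],
    [0, 1, 0, 1, 1, 0, 0, 0, 0, 0, 0, 0, 0, 0, 0, 0, 0, 1, 0, 0, 0, 0, 1, 1, 0, 1, 0, 1, 0, 1,
      1, 1, 4, 1],
    [0, 1, 0, 1, 1, 0, 0, 0, 0, 0, 0, 0, 0, 0, 0, 0, 0, 1, 0, 0, 0, 0, 1, 0, 1, 1, 1, 0, 1, 1,
      0, 1, 1, 4]]

/-- the rows of `A⁴` -/
def M2L : List (List ℤ) := [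
    [28, 0, 0, 0, 0, 16, 16, 16, 16, 16, 16, 16, 16, 16, 16, 16, 16, 0, 9, 9, 9, 9, 0, 0, 0, 0,
      0, 0, 0, 0, 0, 0, 0, 0],
    [0, 28, 16, 16, 16, 0, 0, 0, 0, 0, 0, 0, 0, 0, 0, 0, 0, 9, 0, 0, 0, 0, 9, 9, 9, 16, 16, 16,
      16, 16, 16, 16, 16, 16],
    [0, 16, 28, 16, 16, 0, 0, 0, 0, 0, 0, 0, 0, 0, 0, 0, 0, 9, 0, 0, 0, 0, 16, 16, 16, 16, 16,
      16, 16, 16, 16, 9, 9, 9],
    [0, 16, 16, 28, 16, 0, 0, 0, 0, 0, 0, 0, 0, 0, 0, 0, 0, 9, 0, 0, 0, 0, 16, 16, 16, 9, 9, 9,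
      16, 16, 16, 16, 16, 16],
    [0, 16, 16, 16, 28, 0, 0, 0, 0, 0, 0, 0, 0, 0, 0, 0, 0, 9, 0, 0, 0, 0, 16, 16, 16, 16, 16,
      16, 9, 9, 9, 16, 16, 16],
    [16, 0, 0, 0, 0, 28, 16, 16, 10, 15, 16, 9, 16, 16, 10, 16, 15, 0, 9, 16, 16, 16, 0, 0, 0,
      0, 0, 0, 0, 0, 0, 0, 0, 0],
    [16, 0, 0, 0, 0, 16, 28, 16, 15, 16, 10, 16, 16, 9, 16, 15, 10, 0, 9, 16, 16, 16, 0, 0, 0,
      0, 0, 0, 0, 0, 0, 0, 0, 0],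
    [16, 0, 0, 0, 0, 16, 16, 28, 16, 10, 15, 16, 9, 16, 15, 10, 16, 0, 9, 16, 16, 16, 0, 0, 0,
      0, 0, 0, 0, 0, 0, 0, 0, 0],
    [16, 0, 0, 0, 0, 10, 15, 16, 30, 15, 15, 15, 16, 10, 10, 10, 21, 0, 16, 16, 16, 9, 0, 0, 0,
      0, 0, 0, 0, 0, 0, 0, 0, 0],
    [16, 0, 0, 0, 0, 15, 16, 10, 15, 30, 15, 10, 15, 16, 21, 10, 10, 0, 16, 16, 16, 9, 0, 0, 0,
      0, 0, 0, 0, 0, 0, 0, 0, 0],
    [16, 0, 0, 0, 0, 16, 10, 15, 15, 15, 30, 16, 10, 15, 10, 21, 10, 0, 16, 16, 16, 9, 0, 0, 0,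
      0, 0, 0, 0, 0, 0, 0, 0, 0],
    [16, 0, 0, 0, 0, 9, 16, 16, 15, 10, 16, 28, 16, 16, 15, 16, 10, 0, 16, 9, 16, 16, 0, 0, 0,
      0, 0, 0, 0, 0, 0, 0, 0, 0],
    [16, 0, 0, 0, 0, 16, 16, 9, 16, 15, 10, 16, 28, 16, 10, 15, 16, 0, 16, 9, 16, 16, 0, 0, 0,
      0, 0, 0, 0, 0, 0, 0, 0, 0],
    [16, 0, 0, 0, 0, 16, 9, 16, 10, 16, 15, 16, 16, 28, 16, 10, 15, 0, 16, 9, 16, 16, 0, 0, 0,
      0, 0, 0, 0, 0, 0, 0, 0, 0],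
    [16, 0, 0, 0, 0, 10, 16, 15, 10, 21, 10, 15, 10, 16, 30, 15, 15, 0, 16, 16, 9, 16, 0, 0, 0,
      0, 0, 0, 0, 0, 0, 0, 0, 0],
    [16, 0, 0, 0, 0, 16, 15, 10, 10, 10, 21, 16, 15, 10, 15, 30, 15, 0, 16, 16, 9, 16, 0, 0, 0,
      0, 0, 0, 0, 0, 0, 0, 0, 0],
    [16, 0, 0, 0, 0, 15, 10, 16, 21, 10, 10, 10, 16, 15, 15, 15, 30, 0, 16, 16, 9, 16, 0, 0, 0,
      0, 0, 0, 0, 0, 0, 0, 0, 0],
    [0, 9, 9, 9, 9, 0, 0, 0, 0, 0, 0, 0, 0, 0, 0, 0, 0, 28, 0, 0, 0, 0, 16, 16, 16, 16, 16, 16,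
      16, 16, 16, 16, 16, 16],
    [9, 0, 0, 0, 0, 9, 9, 9, 16, 16, 16, 16, 16, 16, 16, 16, 16, 0, 28, 16, 16, 16, 0, 0, 0, 0,
      0, 0, 0, 0, 0, 0, 0, 0],
    [9, 0, 0, 0, 0, 16, 16, 16, 16, 16, 16, 9, 9, 9, 16, 16, 16, 0, 16, 28, 16, 16, 0, 0, 0, 0,
      0, 0, 0, 0, 0, 0, 0, 0],
    [9, 0, 0, 0, 0, 16, 16, 16, 16, 16, 16, 16, 16, 16, 9, 9, 9, 0, 16, 16, 28, 16, 0, 0, 0, 0,
      0, 0, 0, 0, 0, 0, 0, 0],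
    [9, 0, 0, 0, 0, 16, 16, 16, 9, 9, 9, 16, 16, 16, 16, 16, 16, 0, 16, 16, 16, 28, 0, 0, 0, 0,
      0, 0, 0, 0, 0, 0, 0, 0],
    [0, 9, 16, 16, 16, 0, 0, 0, 0, 0, 0, 0, 0, 0, 0, 0, 0, 16, 0, 0, 0, 0, 30, 15, 15, 10, 21,
      10, 10, 15, 16, 10, 15, 16],
    [0, 9, 16, 16, 16, 0, 0, 0, 0, 0, 0, 0, 0, 0, 0, 0, 0, 16, 0, 0, 0, 0, 15, 30, 15, 21, 10,
      10, 16, 10, 15, 15, 16, 10],
    [0, 9, 16, 16, 16, 0, 0, 0, 0, 0, 0, 0, 0, 0, 0, 0, 0, 16, 0, 0, 0, 0, 15, 15, 30, 10, 10,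
      21, 15, 16, 10, 16, 10, 15],
    [0, 16, 16, 9, 16, 0, 0, 0, 0, 0, 0, 0, 0, 0, 0, 0, 0, 16, 0, 0, 0, 0, 10, 21, 10, 30, 15,
      15, 16, 15, 10, 10, 16, 15],
    [0, 16, 16, 9, 16, 0, 0, 0, 0, 0, 0, 0, 0, 0, 0, 0, 0, 16, 0, 0, 0, 0, 21, 10, 10, 15, 30,
      15, 15, 10, 16, 15, 10, 16],
    [0, 16, 16, 9, 16, 0, 0, 0, 0, 0, 0, 0, 0, 0, 0, 0, 0, 16, 0, 0, 0, 0, 10, 10, 21, 15, 15,
      30, 10, 16, 15, 16, 15, 10],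
    [0, 16, 16, 16, 9, 0, 0, 0, 0, 0, 0, 0, 0, 0, 0, 0, 0, 16, 0, 0, 0, 0, 10, 16, 15, 16, 15,
      10, 28, 16, 16, 16, 9, 16],
    [0, 16, 16, 16, 9, 0, 0, 0, 0, 0, 0, 0, 0, 0, 0, 0, 0, 16, 0, 0, 0, 0, 15, 10, 16, 15, 10,
      16, 16, 28, 16, 9, 16, 16],
    [0, 16, 16, 16, 9, 0, 0, 0, 0, 0, 0, 0, 0, 0, 0, 0, 0, 16, 0, 0, 0, 0, 16, 15, 10, 10, 16,
      15, 16, 16, 28, 16, 16, 9],
    [0, 16, 9, 16, 16, 0, 0, 0, 0, 0, 0, 0, 0, 0, 0, 0, 0, 16, 0, 0, 0, 0, 10, 15, 16, 10, 15,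
      16, 16, 9, 16, 28, 16, 16],
    [0, 16, 9, 16, 16, 0, 0, 0, 0, 0, 0, 0, 0, 0, 0, 0, 0, 16, 0, 0, 0, 0, 15, 16, 10, 16, 10,
      15, 9, 16, 16, 16, 28, 16],
    [0, 16, 9, 16, 16, 0, 0, 0, 0, 0, 0, 0, 0, 0, 0, 0, 0, 16, 0, 0, 0, 0, 16, 10, 15, 15, 16,
      10, 16, 16, 9, 16, 16, 28]]

/-- the rows of `A⁴ - 7 A² + 9` -/
def T1L : List (List ℤ) := [
    [9, 0, 0, 0, 0, 9, 9, 9, 9, 9, 9, 9, 9, 9, 9, 9, 9, 0, 9, 9, 9, 9, 0, 0, 0, 0, 0, 0, 0, 0,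
      0, 0, 0, 0],
    [0, 9, 9, 9, 9, 0, 0, 0, 0, 0, 0, 0, 0, 0, 0, 0, 0, 9, 0, 0, 0, 0, 9, 9, 9, 9, 9, 9, 9, 9,
      9, 9, 9, 9],
    [0, 9, 9, 9, 9, 0, 0, 0, 0, 0, 0, 0, 0, 0, 0, 0, 0, 9, 0, 0, 0, 0, 9, 9, 9, 9, 9, 9, 9, 9,
      9, 9, 9, 9],
    [0, 9, 9, 9, 9, 0, 0, 0, 0, 0, 0, 0, 0, 0, 0, 0, 0, 9, 0, 0, 0, 0, 9, 9, 9, 9, 9, 9, 9, 9,
      9, 9, 9, 9],
    [0, 9, 9, 9, 9, 0, 0, 0, 0, 0, 0, 0, 0, 0, 0, 0, 0, 9, 0, 0, 0, 0, 9, 9, 9, 9, 9, 9, 9, 9,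
      9, 9, 9, 9],
    [9, 0, 0, 0, 0, 9, 9, 9, 10, 8, 9, 9, 9, 9, 10, 9, 8, 0, 9, 9, 9, 9, 0, 0, 0, 0, 0, 0, 0,
      0, 0, 0, 0, 0],
    [9, 0, 0, 0, 0, 9, 9, 9, 8, 9, 10, 9, 9, 9, 9, 8, 10, 0, 9, 9, 9, 9, 0, 0, 0, 0, 0, 0, 0,
      0, 0, 0, 0, 0],
    [9, 0, 0, 0, 0, 9, 9, 9, 9, 10, 8, 9, 9, 9, 8, 10, 9, 0, 9, 9, 9, 9, 0, 0, 0, 0, 0, 0, 0,
      0, 0, 0, 0, 0],
    [9, 0, 0, 0, 0, 10, 8, 9, 11, 8, 8, 8, 9, 10, 10, 10, 7, 0, 9, 9, 9, 9, 0, 0, 0, 0, 0, 0,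
      0, 0, 0, 0, 0, 0],
    [9, 0, 0, 0, 0, 8, 9, 10, 8, 11, 8, 10, 8, 9, 7, 10, 10, 0, 9, 9, 9, 9, 0, 0, 0, 0, 0, 0,
      0, 0, 0, 0, 0, 0],
    [9, 0, 0, 0, 0, 9, 10, 8, 8, 8, 11, 9, 10, 8, 10, 7, 10, 0, 9, 9, 9, 9, 0, 0, 0, 0, 0, 0,
      0, 0, 0, 0, 0, 0],
    [9, 0, 0, 0, 0, 9, 9, 9, 8, 10, 9, 9, 9, 9, 8, 9, 10, 0, 9, 9, 9, 9, 0, 0, 0, 0, 0, 0, 0,
      0, 0, 0, 0, 0],
    [9, 0, 0, 0, 0, 9, 9, 9, 9, 8, 10, 9, 9, 9, 10, 8, 9, 0, 9, 9, 9, 9, 0, 0, 0, 0, 0, 0, 0,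
      0, 0, 0, 0, 0],
    [9, 0, 0, 0, 0, 9, 9, 9, 10, 9, 8, 9, 9, 9, 9, 10, 8, 0, 9, 9, 9, 9, 0, 0, 0, 0, 0, 0, 0,
      0, 0, 0, 0, 0],
    [9, 0, 0, 0, 0, 10, 9, 8, 10, 7, 10, 8, 10, 9, 11, 8, 8, 0, 9, 9, 9, 9, 0, 0, 0, 0, 0, 0,
      0, 0, 0, 0, 0, 0],
    [9, 0, 0, 0, 0, 9, 8, 10, 10, 10, 7, 9, 8, 10, 8, 11, 8, 0, 9, 9, 9, 9, 0, 0, 0, 0, 0, 0,
      0, 0, 0, 0, 0, 0],
    [9, 0, 0, 0, 0, 8, 10, 9, 7, 10, 10, 10, 9, 8, 8, 8, 11, 0, 9, 9, 9, 9, 0, 0, 0, 0, 0, 0,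
      0, 0, 0, 0, 0, 0],
    [0, 9, 9, 9, 9, 0, 0, 0, 0, 0, 0, 0, 0, 0, 0, 0, 0, 9, 0, 0, 0, 0, 9, 9, 9, 9, 9, 9, 9, 9,
      9, 9, 9, 9],
    [9, 0, 0, 0, 0, 9, 9, 9, 9, 9, 9, 9, 9, 9, 9, 9, 9, 0, 9, 9, 9, 9, 0, 0, 0, 0, 0, 0, 0, 0,
      0, 0, 0, 0],
    [9, 0, 0, 0, 0, 9, 9, 9, 9, 9, 9, 9, 9, 9, 9, 9, 9, 0, 9, 9, 9, 9, 0, 0, 0, 0, 0, 0, 0, 0,
      0, 0, 0, 0],
    [9, 0, 0, 0, 0, 9, 9, 9, 9, 9, 9, 9, 9, 9, 9, 9, 9, 0, 9, 9, 9, 9, 0, 0, 0, 0, 0, 0, 0, 0,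
      0, 0, 0, 0],
    [9, 0, 0, 0, 0, 9, 9, 9, 9, 9, 9, 9, 9, 9, 9, 9, 9, 0, 9, 9, 9, 9, 0, 0, 0, 0, 0, 0, 0, 0,
      0, 0, 0, 0],
    [0, 9, 9, 9, 9, 0, 0, 0, 0, 0, 0, 0, 0, 0, 0, 0, 0, 9, 0, 0, 0, 0, 11, 8, 8, 10, 7, 10, 10,
      8, 9, 10, 8, 9],
    [0, 9, 9, 9, 9, 0, 0, 0, 0, 0, 0, 0, 0, 0, 0, 0, 0, 9, 0, 0, 0, 0, 8, 11, 8, 7, 10, 10, 9,
      10, 8, 8, 9, 10],
    [0, 9, 9, 9, 9, 0, 0, 0, 0, 0, 0, 0, 0, 0, 0, 0, 0, 9, 0, 0, 0, 0, 8, 8, 11, 10, 10, 7, 8,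
      9, 10, 9, 10, 8],
    [0, 9, 9, 9, 9, 0, 0, 0, 0, 0, 0, 0, 0, 0, 0, 0, 0, 9, 0, 0, 0, 0, 10, 7, 10, 11, 8, 8, 9,
      8, 10, 10, 9, 8],
    [0, 9, 9, 9, 9, 0, 0, 0, 0, 0, 0, 0, 0, 0, 0, 0, 0, 9, 0, 0, 0, 0, 7, 10, 10, 8, 11, 8, 8,
      10, 9, 8, 10, 9],
    [0, 9, 9, 9, 9, 0, 0, 0, 0, 0, 0, 0, 0, 0, 0, 0, 0, 9, 0, 0, 0, 0, 10, 10, 7, 8, 8, 11, 10,
      9, 8, 9, 8, 10],
    [0, 9, 9, 9, 9, 0, 0, 0, 0, 0, 0, 0, 0, 0, 0, 0, 0, 9, 0, 0, 0, 0, 10, 9, 8, 9, 8, 10, 9,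
      9, 9, 9, 9, 9],
    [0, 9, 9, 9, 9, 0, 0, 0, 0, 0, 0, 0, 0, 0, 0, 0, 0, 9, 0, 0, 0, 0, 8, 10, 9, 8, 10, 9, 9,
      9, 9, 9, 9, 9],
    [0, 9, 9, 9, 9, 0, 0, 0, 0, 0, 0, 0, 0, 0, 0, 0, 0, 9, 0, 0, 0, 0, 9, 8, 10, 10, 9, 8, 9,
      9, 9, 9, 9, 9],
    [0, 9, 9, 9, 9, 0, 0, 0, 0, 0, 0, 0, 0, 0, 0, 0, 0, 9, 0, 0, 0, 0, 10, 8, 9, 10, 8, 9, 9,
      9, 9, 9, 9, 9],
    [0, 9, 9, 9, 9, 0, 0, 0, 0, 0, 0, 0, 0, 0, 0, 0, 0, 9, 0, 0, 0, 0, 8, 9, 10, 9, 10, 8, 9,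
      9, 9, 9, 9, 9],
    [0, 9, 9, 9, 9, 0, 0, 0, 0, 0, 0, 0, 0, 0, 0, 0, 0, 9, 0, 0, 0, 0, 9, 10, 8, 8, 9, 10, 9,
      9, 9, 9, 9, 9]]

/-- the rows of `A⁴ - 5 A² + 1` -/
def T2L : List (List ℤ) := [
    [9, 0, 0, 0, 0, 11, 11, 11, 11, 11, 11, 11, 11, 11, 11, 11, 11, 0, 9, 9, 9, 9, 0, 0, 0, 0,
      0, 0, 0, 0, 0, 0, 0, 0],
    [0, 9, 11, 11, 11, 0, 0, 0, 0, 0, 0, 0, 0, 0, 0, 0, 0, 9, 0, 0, 0, 0, 9, 9, 9, 11, 11, 11,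
      11, 11, 11, 11, 11, 11],
    [0, 11, 9, 11, 11, 0, 0, 0, 0, 0, 0, 0, 0, 0, 0, 0, 0, 9, 0, 0, 0, 0, 11, 11, 11, 11, 11,
      11, 11, 11, 11, 9, 9, 9],
    [0, 11, 11, 9, 11, 0, 0, 0, 0, 0, 0, 0, 0, 0, 0, 0, 0, 9, 0, 0, 0, 0, 11, 11, 11, 9, 9, 9,
      11, 11, 11, 11, 11, 11],
    [0, 11, 11, 11, 9, 0, 0, 0, 0, 0, 0, 0, 0, 0, 0, 0, 0, 9, 0, 0, 0, 0, 11, 11, 11, 11, 11,
      11, 9, 9, 9, 11, 11, 11],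
    [11, 0, 0, 0, 0, 9, 11, 11, 10, 10, 11, 9, 11, 11, 10, 11, 10, 0, 9, 11, 11, 11, 0, 0, 0,
      0, 0, 0, 0, 0, 0, 0, 0, 0],
    [11, 0, 0, 0, 0, 11, 9, 11, 10, 11, 10, 11, 11, 9, 11, 10, 10, 0, 9, 11, 11, 11, 0, 0, 0,
      0, 0, 0, 0, 0, 0, 0, 0, 0],
    [11, 0, 0, 0, 0, 11, 11, 9, 11, 10, 10, 11, 9, 11, 10, 10, 11, 0, 9, 11, 11, 11, 0, 0, 0,
      0, 0, 0, 0, 0, 0, 0, 0, 0],
    [11, 0, 0, 0, 0, 10, 10, 11, 11, 10, 10, 10, 11, 10, 10, 10, 11, 0, 11, 11, 11, 9, 0, 0, 0,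
      0, 0, 0, 0, 0, 0, 0, 0, 0],
    [11, 0, 0, 0, 0, 10, 11, 10, 10, 11, 10, 10, 10, 11, 11, 10, 10, 0, 11, 11, 11, 9, 0, 0, 0,
      0, 0, 0, 0, 0, 0, 0, 0, 0],
    [11, 0, 0, 0, 0, 11, 10, 10, 10, 10, 11, 11, 10, 10, 10, 11, 10, 0, 11, 11, 11, 9, 0, 0, 0,
      0, 0, 0, 0, 0, 0, 0, 0, 0],
    [11, 0, 0, 0, 0, 9, 11, 11, 10, 10, 11, 9, 11, 11, 10, 11, 10, 0, 11, 9, 11, 11, 0, 0, 0,
      0, 0, 0, 0, 0, 0, 0, 0, 0],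
    [11, 0, 0, 0, 0, 11, 11, 9, 11, 10, 10, 11, 9, 11, 10, 10, 11, 0, 11, 9, 11, 11, 0, 0, 0,
      0, 0, 0, 0, 0, 0, 0, 0, 0],
    [11, 0, 0, 0, 0, 11, 9, 11, 10, 11, 10, 11, 11, 9, 11, 10, 10, 0, 11, 9, 11, 11, 0, 0, 0,
      0, 0, 0, 0, 0, 0, 0, 0, 0],
    [11, 0, 0, 0, 0, 10, 11, 10, 10, 11, 10, 10, 10, 11, 11, 10, 10, 0, 11, 11, 9, 11, 0, 0, 0,
      0, 0, 0, 0, 0, 0, 0, 0, 0],
    [11, 0, 0, 0, 0, 11, 10, 10, 10, 10, 11, 11, 10, 10, 10, 11, 10, 0, 11, 11, 9, 11, 0, 0, 0,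
      0, 0, 0, 0, 0, 0, 0, 0, 0],
    [11, 0, 0, 0, 0, 10, 10, 11, 11, 10, 10, 10, 11, 10, 10, 10, 11, 0, 11, 11, 9, 11, 0, 0, 0,
      0, 0, 0, 0, 0, 0, 0, 0, 0],
    [0, 9, 9, 9, 9, 0, 0, 0, 0, 0, 0, 0, 0, 0, 0, 0, 0, 9, 0, 0, 0, 0, 11, 11, 11, 11, 11, 11,
      11, 11, 11, 11, 11, 11],
    [9, 0, 0, 0, 0, 9, 9, 9, 11, 11, 11, 11, 11, 11, 11, 11, 11, 0, 9, 11, 11, 11, 0, 0, 0, 0,
      0, 0, 0, 0, 0, 0, 0, 0],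
    [9, 0, 0, 0, 0, 11, 11, 11, 11, 11, 11, 9, 9, 9, 11, 11, 11, 0, 11, 9, 11, 11, 0, 0, 0, 0,
      0, 0, 0, 0, 0, 0, 0, 0],
    [9, 0, 0, 0, 0, 11, 11, 11, 11, 11, 11, 11, 11, 11, 9, 9, 9, 0, 11, 11, 9, 11, 0, 0, 0, 0,
      0, 0, 0, 0, 0, 0, 0, 0],
    [9, 0, 0, 0, 0, 11, 11, 11, 9, 9, 9, 11, 11, 11, 11, 11, 11, 0, 11, 11, 11, 9, 0, 0, 0, 0,
      0, 0, 0, 0, 0, 0, 0, 0],
    [0, 9, 11, 11, 11, 0, 0, 0, 0, 0, 0, 0, 0, 0, 0, 0, 0, 11, 0, 0, 0, 0, 11, 10, 10, 10, 11,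
      10, 10, 10, 11, 10, 10, 11],
    [0, 9, 11, 11, 11, 0, 0, 0, 0, 0, 0, 0, 0, 0, 0, 0, 0, 11, 0, 0, 0, 0, 10, 11, 10, 11, 10,
      10, 11, 10, 10, 10, 11, 10],
    [0, 9, 11, 11, 11, 0, 0, 0, 0, 0, 0, 0, 0, 0, 0, 0, 0, 11, 0, 0, 0, 0, 10, 10, 11, 10, 10,
      11, 10, 11, 10, 11, 10, 10],
    [0, 11, 11, 9, 11, 0, 0, 0, 0, 0, 0, 0, 0, 0, 0, 0, 0, 11, 0, 0, 0, 0, 10, 11, 10, 11, 10,
      10, 11, 10, 10, 10, 11, 10],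
    [0, 11, 11, 9, 11, 0, 0, 0, 0, 0, 0, 0, 0, 0, 0, 0, 0, 11, 0, 0, 0, 0, 11, 10, 10, 10, 11,
      10, 10, 10, 11, 10, 10, 11],
    [0, 11, 11, 9, 11, 0, 0, 0, 0, 0, 0, 0, 0, 0, 0, 0, 0, 11, 0, 0, 0, 0, 10, 10, 11, 10, 10,
      11, 10, 11, 10, 11, 10, 10],
    [0, 11, 11, 11, 9, 0, 0, 0, 0, 0, 0, 0, 0, 0, 0, 0, 0, 11, 0, 0, 0, 0, 10, 11, 10, 11, 10,
      10, 9, 11, 11, 11, 9, 11],
    [0, 11, 11, 11, 9, 0, 0, 0, 0, 0, 0, 0, 0, 0, 0, 0, 0, 11, 0, 0, 0, 0, 10, 10, 11, 10, 10,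
      11, 11, 9, 11, 9, 11, 11],
    [0, 11, 11, 11, 9, 0, 0, 0, 0, 0, 0, 0, 0, 0, 0, 0, 0, 11, 0, 0, 0, 0, 11, 10, 10, 10, 11,
      10, 11, 11, 9, 11, 11, 9],
    [0, 11, 9, 11, 11, 0, 0, 0, 0, 0, 0, 0, 0, 0, 0, 0, 0, 11, 0, 0, 0, 0, 10, 10, 11, 10, 10,
      11, 11, 9, 11, 9, 11, 11],
    [0, 11, 9, 11, 11, 0, 0, 0, 0, 0, 0, 0, 0, 0, 0, 0, 0, 11, 0, 0, 0, 0, 10, 11, 10, 11, 10,
      10, 9, 11, 11, 11, 9, 11],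
    [0, 11, 9, 11, 11, 0, 0, 0, 0, 0, 0, 0, 0, 0, 0, 0, 0, 11, 0, 0, 0, 0, 11, 10, 10, 10, 11,
      10, 11, 11, 9, 11, 11, 9]]

/-- the product of the last two matrices: it is constant on each of the two bipartition classes -/
def ZL : List (List ℤ) := [
    [1593, 0, 0, 0, 0, 1593, 1593, 1593, 1593, 1593, 1593, 1593, 1593, 1593, 1593, 1593, 1593,
      0, 1593, 1593, 1593, 1593, 0, 0, 0, 0, 0, 0, 0, 0, 0, 0, 0, 0],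
    [0, 1593, 1593, 1593, 1593, 0, 0, 0, 0, 0, 0, 0, 0, 0, 0, 0, 0, 1593, 0, 0, 0, 0, 1593,
      1593, 1593, 1593, 1593, 1593, 1593, 1593, 1593, 1593, 1593, 1593],
    [0, 1593, 1593, 1593, 1593, 0, 0, 0, 0, 0, 0, 0, 0, 0, 0, 0, 0, 1593, 0, 0, 0, 0, 1593,
      1593, 1593, 1593, 1593, 1593, 1593, 1593, 1593, 1593, 1593, 1593],
    [0, 1593, 1593, 1593, 1593, 0, 0, 0, 0, 0, 0, 0, 0, 0, 0, 0, 0, 1593, 0, 0, 0, 0, 1593,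
      1593, 1593, 1593, 1593, 1593, 1593, 1593, 1593, 1593, 1593, 1593],
    [0, 1593, 1593, 1593, 1593, 0, 0, 0, 0, 0, 0, 0, 0, 0, 0, 0, 0, 1593, 0, 0, 0, 0, 1593,
      1593, 1593, 1593, 1593, 1593, 1593, 1593, 1593, 1593, 1593, 1593],
    [1593, 0, 0, 0, 0, 1593, 1593, 1593, 1593, 1593, 1593, 1593, 1593, 1593, 1593, 1593, 1593,
      0, 1593, 1593, 1593, 1593, 0, 0, 0, 0, 0, 0, 0, 0, 0, 0, 0, 0],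
    [1593, 0, 0, 0, 0, 1593, 1593, 1593, 1593, 1593, 1593, 1593, 1593, 1593, 1593, 1593, 1593,
      0, 1593, 1593, 1593, 1593, 0, 0, 0, 0, 0, 0, 0, 0, 0, 0, 0, 0],
    [1593, 0, 0, 0, 0, 1593, 1593, 1593, 1593, 1593, 1593, 1593, 1593, 1593, 1593, 1593, 1593,
      0, 1593, 1593, 1593, 1593, 0, 0, 0, 0, 0, 0, 0, 0, 0, 0, 0, 0],
    [1593, 0, 0, 0, 0, 1593, 1593, 1593, 1593, 1593, 1593, 1593, 1593, 1593, 1593, 1593, 1593,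
      0, 1593, 1593, 1593, 1593, 0, 0, 0, 0, 0, 0, 0, 0, 0, 0, 0, 0],
    [1593, 0, 0, 0, 0, 1593, 1593, 1593, 1593, 1593, 1593, 1593, 1593, 1593, 1593, 1593, 1593,
      0, 1593, 1593, 1593, 1593, 0, 0, 0, 0, 0, 0, 0, 0, 0, 0, 0, 0],
    [1593, 0, 0, 0, 0, 1593, 1593, 1593, 1593, 1593, 1593, 1593, 1593, 1593, 1593, 1593, 1593,
      0, 1593, 1593, 1593, 1593, 0, 0, 0, 0, 0, 0, 0, 0, 0, 0, 0, 0],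
    [1593, 0, 0, 0, 0, 1593, 1593, 1593, 1593, 1593, 1593, 1593, 1593, 1593, 1593, 1593, 1593,
      0, 1593, 1593, 1593, 1593, 0, 0, 0, 0, 0, 0, 0, 0, 0, 0, 0, 0],
    [1593, 0, 0, 0, 0, 1593, 1593, 1593, 1593, 1593, 1593, 1593, 1593, 1593, 1593, 1593, 1593,
      0, 1593, 1593, 1593, 1593, 0, 0, 0, 0, 0, 0, 0, 0, 0, 0, 0, 0],
    [1593, 0, 0, 0, 0, 1593, 1593, 1593, 1593, 1593, 1593, 1593, 1593, 1593, 1593, 1593, 1593,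
      0, 1593, 1593, 1593, 1593, 0, 0, 0, 0, 0, 0, 0, 0, 0, 0, 0, 0],
    [1593, 0, 0, 0, 0, 1593, 1593, 1593, 1593, 1593, 1593, 1593, 1593, 1593, 1593, 1593, 1593,
      0, 1593, 1593, 1593, 1593, 0, 0, 0, 0, 0, 0, 0, 0, 0, 0, 0, 0],
    [1593, 0, 0, 0, 0, 1593, 1593, 1593, 1593, 1593, 1593, 1593, 1593, 1593, 1593, 1593, 1593,
      0, 1593, 1593, 1593, 1593, 0, 0, 0, 0, 0, 0, 0, 0, 0, 0, 0, 0],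
    [1593, 0, 0, 0, 0, 1593, 1593, 1593, 1593, 1593, 1593, 1593, 1593, 1593, 1593, 1593, 1593,
      0, 1593, 1593, 1593, 1593, 0, 0, 0, 0, 0, 0, 0, 0, 0, 0, 0, 0],
    [0, 1593, 1593, 1593, 1593, 0, 0, 0, 0, 0, 0, 0, 0, 0, 0, 0, 0, 1593, 0, 0, 0, 0, 1593,
      1593, 1593, 1593, 1593, 1593, 1593, 1593, 1593, 1593, 1593, 1593],
    [1593, 0, 0, 0, 0, 1593, 1593, 1593, 1593, 1593, 1593, 1593, 1593, 1593, 1593, 1593, 1593,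
      0, 1593, 1593, 1593, 1593, 0, 0, 0, 0, 0, 0, 0, 0, 0, 0, 0, 0],
    [1593, 0, 0, 0, 0, 1593, 1593, 1593, 1593, 1593, 1593, 1593, 1593, 1593, 1593, 1593, 1593,
      0, 1593, 1593, 1593, 1593, 0, 0, 0, 0, 0, 0, 0, 0, 0, 0, 0, 0],
    [1593, 0, 0, 0, 0, 1593, 1593, 1593, 1593, 1593, 1593, 1593, 1593, 1593, 1593, 1593, 1593,
      0, 1593, 1593, 1593, 1593, 0, 0, 0, 0, 0, 0, 0, 0, 0, 0, 0, 0],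
    [1593, 0, 0, 0, 0, 1593, 1593, 1593, 1593, 1593, 1593, 1593, 1593, 1593, 1593, 1593, 1593,
      0, 1593, 1593, 1593, 1593, 0, 0, 0, 0, 0, 0, 0, 0, 0, 0, 0, 0],
    [0, 1593, 1593, 1593, 1593, 0, 0, 0, 0, 0, 0, 0, 0, 0, 0, 0, 0, 1593, 0, 0, 0, 0, 1593,
      1593, 1593, 1593, 1593, 1593, 1593, 1593, 1593, 1593, 1593, 1593],
    [0, 1593, 1593, 1593, 1593, 0, 0, 0, 0, 0, 0, 0, 0, 0, 0, 0, 0, 1593, 0, 0, 0, 0, 1593,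
      1593, 1593, 1593, 1593, 1593, 1593, 1593, 1593, 1593, 1593, 1593],
    [0, 1593, 1593, 1593, 1593, 0, 0, 0, 0, 0, 0, 0, 0, 0, 0, 0, 0, 1593, 0, 0, 0, 0, 1593,
      1593, 1593, 1593, 1593, 1593, 1593, 1593, 1593, 1593, 1593, 1593],
    [0, 1593, 1593, 1593, 1593, 0, 0, 0, 0, 0, 0, 0, 0, 0, 0, 0, 0, 1593, 0, 0, 0, 0, 1593,
      1593, 1593, 1593, 1593, 1593, 1593, 1593, 1593, 1593, 1593, 1593],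
    [0, 1593, 1593, 1593, 1593, 0, 0, 0, 0, 0, 0, 0, 0, 0, 0, 0, 0, 1593, 0, 0, 0, 0, 1593,
      1593, 1593, 1593, 1593, 1593, 1593, 1593, 1593, 1593, 1593, 1593],
    [0, 1593, 1593, 1593, 1593, 0, 0, 0, 0, 0, 0, 0, 0, 0, 0, 0, 0, 1593, 0, 0, 0, 0, 1593,
      1593, 1593, 1593, 1593, 1593, 1593, 1593, 1593, 1593, 1593, 1593],
    [0, 1593, 1593, 1593, 1593, 0, 0, 0, 0, 0, 0, 0, 0, 0, 0, 0, 0, 1593, 0, 0, 0, 0, 1593,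
      1593, 1593, 1593, 1593, 1593, 1593, 1593, 1593, 1593, 1593, 1593],
    [0, 1593, 1593, 1593, 1593, 0, 0, 0, 0, 0, 0, 0, 0, 0, 0, 0, 0, 1593, 0, 0, 0, 0, 1593,
      1593, 1593, 1593, 1593, 1593, 1593, 1593, 1593, 1593, 1593, 1593],
    [0, 1593, 1593, 1593, 1593, 0, 0, 0, 0, 0, 0, 0, 0, 0, 0, 0, 0, 1593, 0, 0, 0, 0, 1593,
      1593, 1593, 1593, 1593, 1593, 1593, 1593, 1593, 1593, 1593, 1593],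
    [0, 1593, 1593, 1593, 1593, 0, 0, 0, 0, 0, 0, 0, 0, 0, 0, 0, 0, 1593, 0, 0, 0, 0, 1593,
      1593, 1593, 1593, 1593, 1593, 1593, 1593, 1593, 1593, 1593, 1593],
    [0, 1593, 1593, 1593, 1593, 0, 0, 0, 0, 0, 0, 0, 0, 0, 0, 0, 0, 1593, 0, 0, 0, 0, 1593,
      1593, 1593, 1593, 1593, 1593, 1593, 1593, 1593, 1593, 1593, 1593],
    [0, 1593, 1593, 1593, 1593, 0, 0, 0, 0, 0, 0, 0, 0, 0, 0, 0, 0, 1593, 0, 0, 0, 0, 1593,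
      1593, 1593, 1593, 1593, 1593, 1593, 1593, 1593, 1593, 1593, 1593]]

/-- the neighbours -/
def nb : List (List ℕ) := [
    [1, 2, 3, 4],
    [0, 5, 6, 7],
    [0, 8, 9, 10],
    [0, 11, 12, 13],
    [0, 14, 15, 16],
    [1, 25, 29, 33],
    [1, 27, 30, 32],
    [1, 26, 28, 31],
    [2, 22, 26, 30],
    [2, 24, 27, 29],
    [2, 23, 25, 28],
    [3, 23, 30, 31],
    [3, 22, 29, 32],
    [3, 24, 28, 33],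
    [4, 24, 27, 31],
    [4, 23, 25, 32],
    [4, 22, 26, 33],
    [18, 19, 20, 21],
    [17, 22, 23, 24],
    [17, 25, 26, 27],
    [17, 28, 29, 30],
    [17, 31, 32, 33],
    [8, 12, 16, 18],
    [10, 11, 15, 18],
    [9, 13, 14, 18],
    [5, 10, 15, 19],
    [7, 8, 16, 19],
    [6, 9, 14, 19],
    [7, 10, 13, 20],
    [5, 9, 12, 20],
    [6, 8, 11, 20],
    [7, 11, 14, 21],
    [6, 12, 15, 21],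
    [5, 13, 16, 21]]

/-- the distance from the first root -/
def lev : List ℕ := [0, 1, 1, 1, 1, 2, 2, 2, 2, 2, 2, 2, 2, 2, 2, 2, 2, 5, 4, 4, 4, 4, 3, 3, 3, 3, 3, 3, 3, 3,
      3, 3, 3, 3]

/-- first coefficient of the eigenfunction -/
def pL : List ℤ := [4, 1, 1, 1, 1, 0, 0, 0, 0, 0, 0, 0, 0, 0, 0, 0, 0, -4, -1, -1, -1, -1, 0, 0, 0, 0, 0, 0,
      0, 0, 0, 0, 0, 0]

/-- second coefficient of the eigenfunction -/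
def qL : List ℤ := [0, 3, 3, 3, 3, 1, 1, 1, 1, 1, 1, 1, 1, 1, 1, 1, 1, 0, -3, -3, -3, -3, -1, -1, -1, -1, -1,
      -1, -1, -1, -1, -1, -1, -1]

/-- the graph on 34 vertices -/
def G : SimpleGraph (Fin 34) where
  Adj x y := ent AL x y = 1
  symm := ⟨by decide +kernel⟩
  loopless := ⟨by decide +kernel⟩

instance : DecidableRel G.Adj := fun x y => inferInstanceAs (Decidable (ent AL x y = 1))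

lemma ent_AL : ∀ x y : Fin 34, ent AL x y = 1 ∧ G.Adj x y ∨ ent AL x y = 0 ∧ ¬ G.Adj x y := by
  decide +kernel

lemma symm_AL : ∀ x y : Fin 34, ent AL x y = ent AL y x := by decide +kernel

lemma symm_ML : ∀ x y : Fin 34, ent ML x y = ent ML y x := by decide +kernel

lemma symm_T2L : ∀ x y : Fin 34, ent T2L x y = ent T2L y x := by decide +kernel

lemma mul_ML : mulCheck 34 AL AL ML = true := by decide +kernel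

lemma mul_M2L : mulCheck 34 ML ML M2L = true := by decide +kernel

lemma mul_ZL : mulCheck 34 T1L T2L ZL = true := by decide +kernel

lemma ent_T1L : ∀ x y : Fin 34,
    ent T1L x y = ent M2L x y - 7 * ent ML x y + 9 * (if x = y then 1 else 0) := by decide +kernel

lemma ent_T2L : ∀ x y : Fin 34,
    ent T2L x y = ent M2L x y - 5 * ent ML x y + (if x = y then 1 else 0) := by decide +kernel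

/-- the signs of the bipartition -/
def chi (x : Fin 34) : ℤ := 1 - 2 * ((lev.getD x 0 % 2 : ℕ) : ℤ)

lemma ent_ZL : ∀ x y : Fin 34, 2 * ent ZL x y = 1593 * (1 + chi x * chi y) := by decide +kernel

lemma sum_chi : ∀ y : Fin 34, ∑ x : Fin 34, ent AL x y * chi x = -4 * chi y := by decide +kernel

lemma sum_p : ∀ x : Fin 34, ∑ y : Fin 34, ent AL x y * pL.getD y 0 = pL.getD x 0 + qL.getD x 0 := by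
  decide +kernel

lemma sum_q : ∀ x : Fin 34, ∑ y : Fin 34, ent AL x y * qL.getD y 0 = 3 * pL.getD x 0 := by
  decide +kernel

lemma tot_p : ∑ x : Fin 34, pL.getD x 0 = 0 := by decide +kernel

lemma tot_q : ∑ x : Fin 34, qL.getD x 0 = 0 := by decide +kernel

lemma row_AL : ∀ x : Fin 34, ∑ y : Fin 34, ent AL x y = 4 := by decide +kernel

lemma degree_G : ∀ x : Fin 34, G.degree x = 4 := by decide +kernel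

lemma nb_G : ∀ x : Fin 34, ∀ z ∈ nb.getD x [], ∃ h : z < 34, G.Adj x ⟨z, h⟩ := by decide +kernel

lemma ball_G : ∀ x : Fin 34, bm (fun i => nb.getD i []) 5 x = 2 ^ 34 - 1 := by decide +kernel

lemma lev_G : ∀ x y : Fin 34, G.Adj x y → lev.getD y 0 ≤ lev.getD x 0 + 1 := by decide +kernel

lemma bip_G : ∀ x y : Fin 34, G.Adj x y → (lev.getD x 0 + lev.getD y 0) % 2 = 1 := by
  decide +kernel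

lemma conn_diam : G.Connected ∧ G.diam = 5 :=
  diam_eq G 5 (fun i => nb.getD i []) nb_G ball_G (fun x => lev.getD x 0) lev_G 0 17 rfl rfl

/-- the spectral gap is `B(4, 5)` -/
lemma gap_G : lam2 G = B 4 5 := by
  rw [B_45]
  obtain ⟨s, hs⟩ : ∃ s, s = √(13 : ℝ) := ⟨_, rfl⟩
  have hs2 : s * s = 13 := by rw [hs]; exact Real.mul_self_sqrt (by norm_num)
  have hs0 : 0 < s := by rw [hs]; positivity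
  rw [← hs]
  have hmain := lam2_eq G 4 (fun x y => (ent AL x y : ℝ)) ?_ ?_ ((1 + s) / 2)
    (fun x => ((pL.getD x 0 : ℤ) : ℝ) * ((1 + s) / 2) + ((qL.getD x 0 : ℤ) : ℝ)) ?_ ?_ ?_ ?_
  · rw [hmain]; ring
  · intro x y
    rcases ent_AL x y with ⟨h1, h2⟩ | ⟨h1, h2⟩
    · exact Or.inl ⟨by exact_mod_cast h1, h2⟩
    · exact Or.inr ⟨by exact_mod_cast h1, h2⟩
  · intro x
    exact_mod_cast row_AL x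
  · intro h
    have h1 := congrFun h (5 : Fin 34)
    have hp : pL.getD ((5 : Fin 34) : ℕ) 0 = 0 := by decide +kernel
    have hq : qL.getD ((5 : Fin 34) : ℕ) 0 = 1 := by decide +kernel
    simp only [hp, hq] at h1
    norm_num at h1
  · rw [Finset.sum_add_distrib, ← Finset.sum_mul]
    have h1 : ∑ x : Fin 34, ((pL.getD x 0 : ℤ) : ℝ) = 0 := by exact_mod_cast tot_p
    have h2 : ∑ x : Fin 34, ((qL.getD x 0 : ℤ) : ℝ) = 0 := by exact_mod_cast tot_q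
    rw [h1, h2]
    ring
  · intro x
    have h1 : ∑ y : Fin 34, (ent AL x y : ℝ) * ((pL.getD y 0 : ℤ) : ℝ) =
        ((pL.getD x 0 : ℤ) : ℝ) + ((qL.getD x 0 : ℤ) : ℝ) := by exact_mod_cast sum_p x
    have h2 : ∑ y : Fin 34, (ent AL x y : ℝ) * ((qL.getD y 0 : ℤ) : ℝ) =
        3 * ((pL.getD x 0 : ℤ) : ℝ) := by exact_mod_cast sum_q x
    have h3 : ∀ y : Fin 34, (ent AL x y : ℝ) *
        (((pL.getD y 0 : ℤ) : ℝ) * ((1 + s) / 2) + ((qL.getD y 0 : ℤ) : ℝ)) =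
        (ent AL x y : ℝ) * ((pL.getD y 0 : ℤ) : ℝ) * ((1 + s) / 2) +
        (ent AL x y : ℝ) * ((qL.getD y 0 : ℤ) : ℝ) := fun y => by ring
    rw [Finset.sum_congr rfl fun y _ => h3 y, Finset.sum_add_distrib, ← Finset.sum_mul, h1, h2]
    linear_combination (-((pL.getD x 0 : ℤ) : ℝ) / 4) * hs2
  · intro l f hf hsum he
    by_cases hl : l = -4
    · rw [hl]; linarith
    -- `f` is orthogonal to the bipartition signs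
    have hchi : ∑ x : Fin 34, (chi x : ℝ) * f x = 0 := by
      have h1 : ∑ x : Fin 34, (chi x : ℝ) * ∑ y : Fin 34, (ent AL x y : ℝ) * f y =
          -4 * ∑ x : Fin 34, (chi x : ℝ) * f x := by
        have h2 : ∀ x : Fin 34, (chi x : ℝ) * ∑ y : Fin 34, (ent AL x y : ℝ) * f y =
            ∑ y : Fin 34, (ent AL x y : ℝ) * (chi x : ℝ) * f y := by
          intro x
          rw [Finset.mul_sum]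
          exact Finset.sum_congr rfl fun y _ => by ring
        rw [Finset.sum_congr rfl fun x _ => h2 x, Finset.sum_comm, Finset.mul_sum]
        refine Finset.sum_congr rfl fun y _ => ?_
        rw [← Finset.sum_mul]
        have h3 : ∑ x : Fin 34, (ent AL x y : ℝ) * (chi x : ℝ) = -4 * (chi y : ℝ) := by
          exact_mod_cast sum_chi y
        rw [h3]
        ring
      simp only [he] at h1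
      have h4 : ∑ x : Fin 34, (chi x : ℝ) * (l * f x) = l * ∑ x : Fin 34, (chi x : ℝ) * f x := by
        rw [Finset.mul_sum]
        exact Finset.sum_congr rfl fun x _ => by ring
      rw [h4] at h1
      have h5 : (l + 4) * ∑ x : Fin 34, (chi x : ℝ) * f x = 0 := by linarith
      rcases mul_eq_zero.1 h5 with h | h
      · exact absurd (by linarith) hl
      · exact h
    have hM : ∀ x : Fin 34, ∑ y : Fin 34, (ent ML x y : ℝ) * f y = l ^ 2 * f x := by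
      intro x
      rw [mulCheck_sound 34 AL AL ML mul_ML symm_AL f x]
      simp only [he]
      have : ∀ y : Fin 34, (ent AL x y : ℝ) * (l * f y) = l * ((ent AL x y : ℝ) * f y) :=
        fun y => by ring
      rw [Finset.sum_congr rfl fun y _ => this y, ← Finset.mul_sum, he]
      ring
    have hM2 : ∀ x : Fin 34, ∑ y : Fin 34, (ent M2L x y : ℝ) * f y = l ^ 4 * f x := by
      intro x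
      rw [mulCheck_sound 34 ML ML M2L mul_M2L symm_ML f x]
      simp only [hM]
      have : ∀ y : Fin 34, (ent ML x y : ℝ) * (l ^ 2 * f y) = l ^ 2 * ((ent ML x y : ℝ) * f y) :=
        fun y => by ring
      rw [Finset.sum_congr rfl fun y _ => this y, ← Finset.mul_sum, hM]
      ring
    have hdelta : ∀ (c : ℝ) (x : Fin 34), ∑ y : Fin 34, c * (if x = y then f y else 0) =
        c * f x := by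
      intro c x
      rw [← Finset.mul_sum, Finset.sum_ite_eq, if_pos (Finset.mem_univ _)]
    have hT1 : ∀ x : Fin 34, ∑ y : Fin 34, (ent T1L x y : ℝ) * f y =
        (l ^ 4 - 7 * l ^ 2 + 9) * f x := by
      intro x
      have h1 : ∀ y : Fin 34, (ent T1L x y : ℝ) * f y = (ent M2L x y : ℝ) * f y -
          7 * ((ent ML x y : ℝ) * f y) + 9 * (if x = y then f y else 0) := by
        intro y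
        rw [ent_T1L]
        push_cast
        split_ifs <;> ring
      rw [Finset.sum_congr rfl fun y _ => h1 y, Finset.sum_add_distrib, Finset.sum_sub_distrib,
        ← Finset.mul_sum, hM, hM2, hdelta]
      ring
    have hT2 : ∀ x : Fin 34, ∑ y : Fin 34, (ent T2L x y : ℝ) * f y =
        (l ^ 4 - 5 * l ^ 2 + 1) * f x := by
      intro x
      have h1 : ∀ y : Fin 34, (ent T2L x y : ℝ) * f y = (ent M2L x y : ℝ) * f y -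
          5 * ((ent ML x y : ℝ) * f y) + 1 * (if x = y then f y else 0) := by
        intro y
        rw [ent_T2L]
        push_cast
        split_ifs <;> ring
      rw [Finset.sum_congr rfl fun y _ => h1 y, Finset.sum_add_distrib, Finset.sum_sub_distrib,
        ← Finset.mul_sum, hM, hM2, hdelta]
      ring
    have hZ : ∀ x : Fin 34, (l ^ 4 - 7 * l ^ 2 + 9) * (l ^ 4 - 5 * l ^ 2 + 1) * f x = 0 := by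
      intro x
      have h1 := mulCheck_sound 34 T1L T2L ZL mul_ZL symm_T2L f x
      simp only [hT2] at h1
      have h2 : ∀ y : Fin 34, (ent T1L x y : ℝ) * ((l ^ 4 - 5 * l ^ 2 + 1) * f y) =
          (l ^ 4 - 5 * l ^ 2 + 1) * ((ent T1L x y : ℝ) * f y) := fun y => by ring
      rw [Finset.sum_congr rfl fun y _ => h2 y, ← Finset.mul_sum, hT1] at h1
      have h3 : ∀ y : Fin 34, (ent ZL x y : ℝ) * f y =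
          1593 / 2 * f y + 1593 / 2 * (chi x : ℝ) * ((chi y : ℝ) * f y) := by
        intro y
        have h4 : 2 * (ent ZL x y : ℝ) = 1593 * (1 + (chi x : ℝ) * (chi y : ℝ)) := by
          exact_mod_cast ent_ZL x y
        linear_combination (f y / 2) * h4
      rw [Finset.sum_congr rfl fun y _ => h3 y, Finset.sum_add_distrib, ← Finset.mul_sum,
        ← Finset.mul_sum, hsum, hchi] at h1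
      linarith
    obtain ⟨x, hx⟩ : ∃ x, f x ≠ 0 := by
      by_contra h
      push Not at h
      exact hf (funext h)
    have h1 := (mul_eq_zero.1 (hZ x)).resolve_right hx
    by_contra hlt
    push Not at hlt
    have hs35 : 3.6 < s := by nlinarith
    have hl2 : ((1 + s) / 2) ^ 2 < l ^ 2 := by
      apply pow_lt_pow_left₀ hlt (by positivity) two_ne_zero
    have hl3 : (7 + s) / 2 < l ^ 2 := by nlinarith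
    rcases mul_eq_zero.1 h1 with h | h
    · have : (l ^ 2 - (7 + s) / 2) * (l ^ 2 - (7 - s) / 2) = 0 := by nlinarith
      rcases mul_eq_zero.1 this with h' | h'
      · linarith
      · linarith
    · nlinarith

lemma girth_G : G.girth = 4 := by
  have c1 : G.Adj 8 22 := by decide +kernel
  have c2 : G.Adj 22 16 := by decide +kernel
  have c3 : G.Adj 16 26 := by decide +kernel
  have c4 : G.Adj 26 8 := by decide +kernel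
  obtain ⟨w, hw⟩ : ∃ w : G.Walk 8 8, w = SimpleGraph.Walk.cons c1 (.cons c2 (.cons c3
    (.cons c4 .nil))) := ⟨_, rfl⟩
  have hcyc : w.IsCycle := by
    rw [hw, SimpleGraph.Walk.isCycle_def, SimpleGraph.Walk.isTrail_def]
    refine ⟨?_, ?_, ?_⟩
    · simp only [SimpleGraph.Walk.edges_cons, SimpleGraph.Walk.edges_nil]
      decide +kernel
    · intro h
      cases h
    · simp only [SimpleGraph.Walk.support_cons, SimpleGraph.Walk.support_nil, List.tail_cons]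
      decide +kernel
  have hlen : w.length = 4 := by rw [hw]; rfl
  have hna : ¬ G.IsAcyclic := fun h => h w hcyc
  have h1 : G.girth ≤ 4 := hlen ▸ SimpleGraph.girth_le_length hcyc
  have h2 : 3 ≤ G.girth := SimpleGraph.three_le_girth hna
  have h3 : G.girth ≠ 3 := by
    intro h
    obtain ⟨a, v, hv, hvl⟩ := SimpleGraph.exists_girth_eq_length.2 hna
    have := parity G (fun x => lev.getD x 0) bip_G v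
    omega
  omega

/-- There is a diameter-maximal 4-regular graph of diameter 5 whose girth is 4, not 6. -/
theorem result : ∃ (V : Type) (_ : Fintype V) (G : SimpleGraph V),
    DiameterMaximal G 4 5 ∧ G.girth = 4 := by
  refine ⟨Fin 34, inferInstance, G, ⟨conn_diam.1, fun v => ?_, conn_diam.2, gap_G⟩, girth_G⟩
  rw [ncard_eq_degree, degree_G]

end Pool.Agent.Results.MP_67c69b_co.OddDiameter
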